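import Mathlib

namespace Pool.Agent.Results.MP_f2d551_nt.Fermat

/-- `n` is a `μ`-Sondow number: for every prime `p ∣ n` with `p ^ s ∥ n`, `p ^ s ∣ n / p + μ`. -/
def Sondow (μ : ℤ) (n : ℕ) : Prop :=
  0 < n ∧ ∀ p s : ℕ, p.Prime → p ∣ n → p ^ s ∣ n → ¬ p ^ (s + 1) ∣ n →
    (p : ℤ) ^ s ∣ ((n / p : ℕ) : ℤ) + μ

lemma sqf (μ : ℤ) (n t : ℕ) (L : List ℕ) (hn : 0 < n) (hL : L.prod = n) (hP : ∀ q ∈ L, q.Prime)
    (hc : ∀ q ∈ L, ¬ q * q ∣ n ∧ q ∣ n / q + t) (h : (n : ℤ) ∣ μ - t) : Sondow μ n := by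
  refine ⟨hn, fun p s hp hpn hs _ => ?_⟩
  have h1 : p ∣ L.prod := hL ▸ hpn
  obtain ⟨q, hq, hpq⟩ := (Prime.dvd_prod_iff hp.prime).1 h1
  have e : p = q := (Nat.prime_dvd_prime_iff_eq hp (hP q hq)).1 hpq
  subst e
  obtain ⟨h2, h3⟩ := hc p hq
  match s, hs with
  | 0, _ => simp
  | 1, _ =>
    have h4 : (p : ℤ) ∣ ((n / p : ℕ) : ℤ) + t := by exact_mod_cast h3
    have h5 : (p : ℤ) ∣ μ - t := (Int.natCast_dvd_natCast.2 hpn).trans h
    have h6 := dvd_add h4 h5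
    have e : ((n / p : ℕ) : ℤ) + t + (μ - t) = ((n / p : ℕ) : ℤ) + μ := by ring
    rw [pow_one, ← e]
    exact h6
  | s + 2, hs => exact absurd (Dvd.dvd.trans ⟨p ^ s, by ring⟩ hs) h2

def f (n x : ℕ) : ℕ := x * x % n

lemma it (n m i : ℕ) : 2 ^ 2 ^ (m + i) % n = (f n)^[i] (2 ^ 2 ^ m % n) := by
  induction i with
  | zero => rfl
  | succ i ih =>
    rw [Function.iterate_succ_apply', ← ih, f, ← Nat.mul_mod, ← pow_add, ← add_assoc, pow_succ 2 (m + i),
      mul_two]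

lemma per (n t m0 L : ℕ) (h0 : (f n)^[m0] (2 % n) = t) (h1 : (f n)^[L] t = t) (j : ℕ) :
    2 ^ 2 ^ (m0 + L * j) % n = t := by
  induction j with
  | zero =>
    have h := it n 0 m0
    rw [zero_add, pow_zero, pow_one, h0] at h
    simpa using h
  | succ j ih => rw [mul_add, mul_one, ← add_assoc, it, ih, h1]

lemma cls (n t m0 L : ℕ) (Q : List ℕ) (hn : 0 < n) (hL : Q.prod = n) (hP : ∀ q ∈ Q, q.Prime)
    (hc : ∀ q ∈ Q, ¬ q * q ∣ n ∧ q ∣ n / q + t) (h0 : (f n)^[m0] (2 % n) = t)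
    (h1 : (f n)^[L] t = t) (m j : ℕ) (hm : m = m0 + L * j) :
    Sondow ((2 ^ 2 ^ m : ℕ) : ℤ) n := by
  refine sqf _ n t Q hn hL hP hc ?_
  have h := per n t m0 L h0 h1 j
  rw [← hm] at h
  refine ⟨((2 ^ 2 ^ m / n : ℕ) : ℤ), ?_⟩
  have h2 := Nat.div_add_mod (2 ^ 2 ^ m) n
  rw [h] at h2
  have h3 : ((n * (2 ^ 2 ^ m / n) + t : ℕ) : ℤ) = ((2 ^ 2 ^ m : ℕ) : ℤ) := by rw [h2]
  rw [← h3, Nat.cast_add, Nat.cast_mul]
  ring

lemma prim (μ : ℤ) (p : ℕ) (hp : p.Prime) (h : (p : ℤ) ∣ μ + 1) : Sondow μ p := by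
  refine ⟨hp.pos, fun q s hq hqp hs _ => ?_⟩
  have e : q = p := (Nat.prime_dvd_prime_iff_eq hq hp).1 hqp
  subst e
  rw [Nat.div_self hq.pos]
  have h2 : (q : ℤ) ^ s ∣ (q : ℤ) := by exact_mod_cast hs
  rw [add_comm]
  exact h2.trans (by simpa using h)

lemma two (k u : ℕ) (hu : Odd u) : Sondow ((2 ^ k * u : ℕ) : ℤ) (2 ^ (k + 1)) := by
  refine ⟨by positivity, fun q s hq hqp hs _ => ?_⟩
  have e : q = 2 := (Nat.prime_dvd_prime_iff_eq hq Nat.prime_two).1 (hq.dvd_of_dvd_pow hqp)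
  subst e
  obtain ⟨v, rfl⟩ := hu
  have h1 : 2 ^ (k + 1) / 2 = 2 ^ k := by rw [pow_succ]; simp
  rw [h1]
  have h2 : 2 ^ s ∣ 2 ^ k + 2 ^ k * (2 * v + 1) := hs.trans ⟨v + 1, by ring⟩
  exact_mod_cast h2

lemma big (m a : ℕ) (h : a ≤ m) : 2 ^ 2 ^ a ≤ 2 ^ 2 ^ m :=
  Nat.pow_le_pow_right (by norm_num) (Nat.pow_le_pow_right (by norm_num) h)

lemma c0 (m : ℕ) (h : 3 ≤ m) (h2 : m % 3 = 0) : Sondow ((2 ^ 2 ^ m : ℕ) : ℤ) 145 :=
  cls 145 111 3 3 [5, 29] (by norm_num) (by norm_num) (by simp only [List.forall_mem_cons]; norm_num)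
    (by decide +kernel) (by decide +kernel) (by decide +kernel) m ((m - 3) / 3) (by omega)

lemma c1 (m : ℕ) (h : 4 ≤ m) (h2 : m % 12 = 4) : Sondow ((2 ^ 2 ^ m : ℕ) : ℤ) 627 :=
  cls 627 328 4 12 [3, 11, 19] (by norm_num) (by norm_num) (by simp only [List.forall_mem_cons]; norm_num)
    (by decide +kernel) (by decide +kernel) (by decide +kernel) m ((m - 4) / 12) (by omega)

lemma c2 (m : ℕ) (h : 5 ≤ m) (h2 : m % 24 = 5) : Sondow ((2 ^ 2 ^ m : ℕ) : ℤ) 248127 :=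
  cls 248127 137053 5 24 [3, 11, 73, 103] (by norm_num) (by norm_num) (by simp only [List.forall_mem_cons]; norm_num)
    (by decide +kernel) (by decide +kernel) (by decide +kernel) m ((m - 5) / 24) (by omega)

lemma c3 (m : ℕ) (h : 10 ≤ m) (h2 : m % 24 = 10) : Sondow ((2 ^ 2 ^ m : ℕ) : ℤ) 429495 :=
  cls 429495 135646 10 24 [3, 5, 11, 19, 137] (by norm_num) (by norm_num) (by simp only [List.forall_mem_cons]; norm_num)
    (by decide +kernel) (by decide +kernel) (by decide +kernel) m ((m - 10) / 24) (by omega)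

lemma c4 (m : ℕ) (h : 13 ≤ m) (h2 : m % 10 = 3) : Sondow ((2 ^ 2 ^ m : ℕ) : ℤ) 34241 :=
  cls 34241 33791 13 10 [97, 353] (by norm_num) (by norm_num) (by simp only [List.forall_mem_cons]; norm_num)
    (by decide +kernel) (by decide +kernel) (by decide +kernel) m ((m - 13) / 10) (by omega)

lemma c5 (m : ℕ) (h : 4 ≤ m) (h2 : m % 20 = 4) : Sondow ((2 ^ 2 ^ m : ℕ) : ℤ) 1313 :=
  cls 1313 1199 4 20 [13, 101] (by norm_num) (by norm_num) (by simp only [List.forall_mem_cons]; norm_num)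
    (by decide +kernel) (by decide +kernel) (by decide +kernel) m ((m - 4) / 20) (by omega)

lemma c6 (m : ℕ) (h : 14 ≤ m) (h2 : m % 36 = 14) : Sondow ((2 ^ 2 ^ m : ℕ) : ℤ) 497045 :=
  cls 497045 397631 14 36 [5, 99409] (by norm_num) (by norm_num) (by simp only [List.forall_mem_cons]; norm_num)
    (by decide +kernel) (by decide +kernel) (by decide +kernel) m ((m - 14) / 36) (by omega)

lemma c7 (m : ℕ) (h : 37 ≤ m) (h2 : m % 36 = 1) : Sondow ((2 ^ 2 ^ m : ℕ) : ℤ) 148295 :=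
  cls 148295 88981 37 36 [5, 7, 19, 223] (by norm_num) (by norm_num) (by simp only [List.forall_mem_cons]; norm_num)
    (by decide +kernel) (by decide +kernel) (by decide +kernel) m ((m - 37) / 36) (by omega)

lemma c8 (m : ℕ) (h : 5 ≤ m) (h2 : m % 42 = 5) : Sondow ((2 ^ 2 ^ m : ℕ) : ℤ) 331945 :=
  cls 331945 262886 5 42 [5, 197, 337] (by norm_num) (by norm_num) (by simp only [List.forall_mem_cons]; norm_num)
    (by decide +kernel) (by decide +kernel) (by decide +kernel) m ((m - 5) / 42) (by omega)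

theorem result (μ : ℤ) (h : μ ∉ ({0, 1, -1, 2, -2, 4, 16} : Set ℤ))
    (hF : ∀ m : ℕ, 5 ≤ m → μ = 2 ^ 2 ^ m → Nat.Prime (2 ^ 2 ^ m + 1) →
      m % 3 = 0 ∨ m % 12 = 4 ∨ m % 24 = 5 ∨ m % 24 = 10 ∨ m % 10 = 3 ∨ m % 20 = 4 ∨ m % 36 = 14 ∨ m % 36 = 1 ∨ m % 42 = 5) :
    ∃ n : ℕ, 2 ≤ n ∧ (n : ℤ) ≤ |μ| ∧ Sondow μ n := by
  simp only [Set.mem_insert_iff, Set.mem_singleton_iff, not_or] at h
  obtain ⟨a0, a1, a2, a3, a4, a5, a6⟩ := h
  rcases lt_or_ge μ 0 with hneg | hpos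
  · have h1 : (μ + 1).natAbs ≠ 1 := by omega
    have hp := Nat.minFac_prime h1
    have hd := Nat.minFac_dvd (μ + 1).natAbs
    have hle := Nat.le_of_dvd (by omega) hd
    refine ⟨_, hp.two_le, ?_, prim μ _ hp (Int.natCast_dvd.2 hd)⟩
    rw [abs_of_neg hneg]
    omega
  · obtain ⟨N, rfl⟩ := Int.eq_ofNat_of_zero_le hpos
    rw [abs_of_nonneg hpos]
    have hN : 3 ≤ N := by omega
    by_cases hpr : (N + 1).Prime
    · obtain ⟨k, u, hu, rfl⟩ := Nat.exists_eq_two_pow_mul_odd (n := N) (by omega)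
      by_cases hu1 : u = 1
      · subst hu1
        rw [mul_one] at *
        have hk : k ≠ 0 := by rintro rfl; simp at hN
        obtain ⟨m, rfl⟩ := Nat.pow_of_pow_add_prime (by norm_num) hk hpr
        have key : ∀ n a : ℕ, a ≤ m → 2 ≤ n → n ≤ 2 ^ 2 ^ a → Sondow ((2 ^ 2 ^ m : ℕ) : ℤ) n →
            ∃ n : ℕ, 2 ≤ n ∧ (n : ℤ) ≤ ((2 ^ 2 ^ m : ℕ) : ℤ) ∧ Sondow ((2 ^ 2 ^ m : ℕ) : ℤ) n :=
          fun n a ha h2 h3 h4 => ⟨n, h2, by exact_mod_cast h3.trans (big m a ha), h4⟩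
        rcases lt_or_ge m 5 with hm | hm
        · have hm0 : m ≠ 0 := by rintro rfl; exact a3 (by norm_num)
          have hm1 : m ≠ 1 := by rintro rfl; exact a5 (by norm_num)
          have hm2 : m ≠ 2 := by rintro rfl; exact a6 (by norm_num)
          rcases (by omega : m = 3 ∨ m = 4) with e | e
          · exact key 145 3 (by omega) (by norm_num) (by norm_num) (c0 m (by omega) (by omega))
          · exact key 627 4 (by omega) (by norm_num) (by norm_num) (c1 m (by omega) (by omega))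
        · rcases hF m hm (by push_cast; rfl) hpr with e | e | e | e | e | e | e | e | e
          · exact key 145 5 hm (by norm_num) (by norm_num) (c0 m (by omega) e)
          · exact key 627 5 hm (by norm_num) (by norm_num) (c1 m (by omega) e)
          · exact key 248127 5 hm (by norm_num) (by norm_num) (c2 m (by omega) e)
          · exact key 429495 5 hm (by norm_num) (by norm_num) (c3 m (by omega) e)
          · exact key 34241 5 hm (by norm_num) (by norm_num) (c4 m (by omega) e)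
          · exact key 1313 5 hm (by norm_num) (by norm_num) (c5 m (by omega) e)
          · exact key 497045 5 hm (by norm_num) (by norm_num) (c6 m (by omega) e)
          · exact key 148295 5 hm (by norm_num) (by norm_num) (c7 m (by omega) e)
          · exact key 331945 5 hm (by norm_num) (by norm_num) (c8 m (by omega) e)
      · refine ⟨2 ^ (k + 1), ?_, ?_, two k u hu⟩
        · calc 2 = 2 ^ 1 := rfl
            _ ≤ 2 ^ (k + 1) := Nat.pow_le_pow_right (by norm_num) (by omega)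
        · obtain ⟨v, rfl⟩ := hu
          have : 2 ^ (k + 1) ≤ 2 ^ k * (2 * v + 1) := by
            rw [pow_succ]; exact Nat.mul_le_mul_left _ (by omega)
          exact_mod_cast this
    · have h1 : N + 1 ≠ 1 := by omega
      have hp := Nat.minFac_prime h1
      have hd := Nat.minFac_dvd (N + 1)
      have hle := Nat.le_of_dvd (by omega) hd
      have hne : (N + 1).minFac ≠ N + 1 := fun e => hpr (e ▸ hp)
      refine ⟨_, hp.two_le, by exact_mod_cast (by omega : (N + 1).minFac ≤ N), prim _ _ hp ?_⟩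
      exact_mod_cast hd

end Pool.Agent.Results.MP_f2d551_nt.Fermat
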